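import Pool.Agent.LPK.Stmts

/-!
# Squad LPK (MP_37fa12_co), row BAS: a basis and the density of a spanning group
-/

set_option autoImplicit false

noncomputable section

open MeasureTheory Filter Topology
open scoped RealInnerProductSpace ENNReal Pointwise

namespace Pool.Agent.LPK.H66

/-- a group with distances at least `2` is discrete -/
theorem disc {n : ℕ} (L : AddSubgroup (V n))
    (hd : (L : Set (V n)).Pairwise (fun x y => 2 ≤ dist x y)) :
    DiscreteTopology (AddSubgroup.toIntSubmodule L) := by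
  refine DiscreteTopology.of_forall_le_dist (r := 2) two_pos ?_
  intro x y hxy
  exact hd x.2 y.2 fun h => hxy (Subtype.ext h)

/-- the density bound for a basis of the lattice -/
theorem dens {n : ℕ} (L : Submodule ℤ (V n)) [DiscreteTopology L] [IsZLattice ℝ L]
    (b : Module.Basis (Fin n) ℤ L) (δ : ℝ≥0∞)
    (hδ : volume (ZSpan.fundamentalDomain (b.ofZLatticeBasis ℝ L)) = δ) (h0 : δ ≠ 0)
    (h1 : δ ≠ ⊤) :
    Filter.limsup (fun R : ℝ => volume ((⋃ x ∈ (L : Set (V n)), Metric.ball x 1) ∩
      Metric.ball (0 : V n) R) / volume (Metric.ball (0 : V n) R)) atTop ≤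
        δ⁻¹ * volume (Metric.ball (0 : V n) 1) := by
  have hfd := ZLattice.isAddFundamentalDomain (L := L) b (volume : Measure (V n))
  have hvi : VAddInvariantMeasure L (V n) volume :=
    (inferInstance : VAddInvariantMeasure L.toAddSubgroup (V n) volume)
  have hmv : MeasurableVAdd L (V n) := (inferInstance : MeasurableVAdd L.toAddSubgroup (V n))
  set F : Set (V n) := ZSpan.fundamentalDomain (b.ofZLatticeBasis ℝ L) with hF
  have hFm : MeasurableSet F := ZSpan.fundamentalDomain_measurableSet _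
  obtain ⟨D, hD, hFD⟩ : ∃ D : ℝ, 0 < D ∧ F ⊆ Metric.ball (0 : V n) D := by
    obtain ⟨D, hD⟩ := (ZSpan.fundamentalDomain_isBounded (b.ofZLatticeBasis ℝ L)).subset_ball 0
    exact ⟨max D 1, lt_max_of_lt_right one_pos, hD.trans (Metric.ball_subset_ball (le_max_left _ _))⟩
  set V1 : ℝ≥0∞ := volume (Metric.ball (0 : V n) 1) with hV1
  have hV0 : V1 ≠ 0 := (Metric.measure_ball_pos volume (0 : V n) one_pos).ne'
  have hVt : V1 ≠ ⊤ := measure_ball_lt_top.ne
  -- the volume of the union
  have key : ∀ R : ℝ, volume ((⋃ x ∈ (L : Set (V n)), Metric.ball x 1) ∩ Metric.ball (0 : V n) R) ≤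
      V1 * (δ⁻¹ * volume (Metric.ball (0 : V n) (R + 1 + D))) := by
    intro R
    let I : Type := {g : L // ‖(g : V n)‖ < R + 1}
    have s1 : (⋃ x ∈ (L : Set (V n)), Metric.ball x 1) ∩ Metric.ball (0 : V n) R ⊆
        ⋃ g : I, Metric.ball ((g.1 : L) : V n) 1 := by
      rintro y ⟨hy, hyR⟩
      simp only [Set.mem_iUnion] at hy ⊢
      obtain ⟨x, hx, hyx⟩ := hy
      refine ⟨⟨⟨x, hx⟩, ?_⟩, hyx⟩
      have h2 : ‖x‖ ≤ dist y x + ‖y‖ := by
        rw [dist_eq_norm, ← norm_neg (y - x), neg_sub]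
        have := norm_add_le (x - y) y
        rwa [sub_add_cancel] at this
      rw [Metric.mem_ball] at hyx
      rw [mem_ball_zero_iff] at hyR
      show ‖x‖ < R + 1
      linarith
    have s2 : volume (⋃ g : I, Metric.ball ((g.1 : L) : V n) 1) ≤ ∑' _ : I, V1 := by
      refine (measure_iUnion_le _).trans (le_of_eq ?_)
      refine tsum_congr fun g => ?_
      exact Measure.addHaar_ball_center volume _ 1
    have s3 : ∑' _ : I, δ ≤ volume (Metric.ball (0 : V n) (R + 1 + D)) := by
      have e1 : ∑' _ : I, δ = ∑' g : I, volume (g.1 +ᵥ F) := by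
        refine tsum_congr fun g => ?_
        rw [measure_vadd, ← hδ]
      rw [e1, ← measure_iUnion₀]
      · refine measure_mono ?_
        intro y hy
        simp only [Set.mem_iUnion] at hy
        obtain ⟨g, z, hz, rfl⟩ := hy
        have h3 := hFD hz
        rw [mem_ball_zero_iff] at h3 ⊢
        have h4 := g.2
        have h5 := norm_add_le ((g.1 : L) : V n) z
        show ‖((g.1 : L) : V n) + z‖ < R + 1 + D
        linarith
      · intro g g' hg
        exact hfd.aedisjoint fun h => hg (Subtype.ext h)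
      · intro g
        exact (hFm.const_vadd g.1).nullMeasurableSet
    have e2 : ∑' _ : I, V1 = V1 * ∑' _ : I, (1 : ℝ≥0∞) := by
      rw [← ENNReal.tsum_mul_left]
      simp
    have e3 : ∑' _ : I, δ = δ * ∑' _ : I, (1 : ℝ≥0∞) := by
      rw [← ENNReal.tsum_mul_left]
      simp
    refine (measure_mono s1).trans (s2.trans ?_)
    rw [e2]
    gcongr
    rw [← ENNReal.div_eq_inv_mul, ENNReal.le_div_iff_mul_le (Or.inl h0) (Or.inl h1), mul_comm,
      ← e3]
    exact s3
  -- the quotient
  have hq : ∀ R : ℝ, 0 < R → volume (Metric.ball (0 : V n) (R + 1 + D)) /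
      volume (Metric.ball (0 : V n) R) = ENNReal.ofReal (((R + 1 + D) / R) ^ n) := by
    intro R hR
    rw [Measure.addHaar_ball_of_pos volume 0 (show 0 < R + 1 + D by linarith),
      Measure.addHaar_ball_of_pos volume 0 hR, finrank_euclideanSpace_fin,
      ENNReal.mul_div_mul_right _ _ hV0 hVt, div_pow, ENNReal.ofReal_div_of_pos (by positivity)]
  have hlim : Tendsto (fun R : ℝ => V1 * δ⁻¹ * ENNReal.ofReal (((R + 1 + D) / R) ^ n)) atTop
      (𝓝 (V1 * δ⁻¹ * 1)) := by
    refine ENNReal.Tendsto.const_mul ?_ (Or.inl one_ne_zero)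
    rw [← ENNReal.ofReal_one]
    refine ENNReal.tendsto_ofReal ?_
    have h2 : Tendsto (fun R : ℝ => (1 + (1 + D) / R) ^ n) atTop (𝓝 ((1 + 0) ^ n)) :=
      (tendsto_const_nhds.add (tendsto_const_nhds.div_atTop tendsto_id)).pow n
    rw [add_zero, one_pow] at h2
    refine h2.congr' ?_
    filter_upwards [eventually_gt_atTop (0 : ℝ)] with R hR
    congr 1
    field_simp
    ring
  have hle : Filter.limsup (fun R : ℝ => volume ((⋃ x ∈ (L : Set (V n)), Metric.ball x 1) ∩
      Metric.ball (0 : V n) R) / volume (Metric.ball (0 : V n) R)) atTop ≤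
      Filter.limsup (fun R : ℝ => V1 * δ⁻¹ * ENNReal.ofReal (((R + 1 + D) / R) ^ n)) atTop := by
    refine Filter.limsup_le_limsup ?_
    filter_upwards [eventually_gt_atTop (0 : ℝ)] with R hR
    rw [← hq R hR, mul_assoc, mul_div_assoc', mul_div_assoc']
    exact ENNReal.div_le_div_right (key R) _
  rw [hlim.limsup_eq, mul_one, mul_comm] at hle
  exact hle

/-- **row BAS** -/
theorem bas : BasStmt := by
  intro n L hn hd hs
  have hdt : DiscreteTopology (AddSubgroup.toIntSubmodule L) := disc L hd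
  have hz : IsZLattice ℝ (AddSubgroup.toIntSubmodule L) := ⟨hs⟩
  have hr : Module.finrank ℤ (AddSubgroup.toIntSubmodule L) = n := by
    rw [ZLattice.rank ℝ, finrank_euclideanSpace_fin]
  let b : Module.Basis (Fin n) ℤ (AddSubgroup.toIntSubmodule L) :=
    Module.finBasisOfFinrankEq ℤ _ hr
  let B : Module.Basis (Fin n) ℝ (V n) := b.ofZLatticeBasis ℝ _
  have hB : ∀ i, B i = ((b i : AddSubgroup.toIntSubmodule L) : V n) := fun i =>
    b.ofZLatticeBasis_apply ℝ _ i
  let E : OrthonormalBasis (Fin n) ℝ (V n) := EuclideanSpace.basisFun (Fin n) ℝ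
  have hdet : E.toBasis.det B = (Matrix.of fun i j => B i j).det := by
    rw [Module.Basis.det_apply, ← Matrix.det_transpose]
    rfl
  have hdet0 : (Matrix.of fun i j => B i j).det ≠ 0 := by
    rw [← hdet]
    exact (E.toBasis.isUnit_det B).ne_zero
  have hvol : volume (ZSpan.fundamentalDomain B) =
      ENNReal.ofReal |(Matrix.of fun i j => B i j).det| := by
    rw [ZSpan.measure_fundamentalDomain B volume E.toBasis, hdet,
      measure_congr (ZSpan.fundamentalDomain_ae_parallelepiped E.toBasis volume),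
      OrthonormalBasis.coe_toBasis, E.volume_parallelepiped, mul_one]
  refine ⟨fun i => B i, fun v => ⟨fun hv => ?_, ?_⟩, hdet0, ?_⟩
  · refine ⟨fun i => b.repr ⟨v, hv⟩ i, ?_⟩
    have h1 := b.sum_repr ⟨v, hv⟩
    have h2 := congrArg (fun x : AddSubgroup.toIntSubmodule L => (x : V n)) h1
    simp only [Submodule.coe_sum, Submodule.coe_smul] at h2
    refine h2.symm.trans ?_
    unfold pt
    refine Finset.sum_congr rfl fun i _ => ?_
    show _ = ((b.repr ⟨v, hv⟩ i : ℤ) : ℝ) • B i
    rw [hB, Int.cast_smul_eq_zsmul]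
  · rintro ⟨a, rfl⟩
    unfold pt
    refine L.sum_mem fun i _ => ?_
    show ((a i : ℤ) : ℝ) • B i ∈ L
    rw [hB, Int.cast_smul_eq_zsmul]
    exact L.zsmul_mem (b i).2 _
  · have h3 := dens (AddSubgroup.toIntSubmodule L) b _ hvol
      (by
        rw [Ne, ENNReal.ofReal_eq_zero, not_le]
        exact abs_pos.2 hdet0) ENNReal.ofReal_ne_top
    rw [← ENNReal.ofReal_inv_of_pos (abs_pos.2 hdet0), ← one_div] at h3
    exact h3

end Pool.Agent.LPK.H66
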